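import Pool.Agent.H61.BRX.Stmts

/-!
Row CNT of the board `brx`
-/

set_option autoImplicit false

namespace Pool.STN

theorem CNT_thm : CNTStmt := by
  intro d _ k W hW h
  choose j h1 h2 h3 using h
  have hcard : k / W ≤ ((Finset.range k).filter fun j => d j).card := by
    calc k / W = (Finset.range (k / W)).card := (Finset.card_range _).symm
      _ ≤ ((Finset.range k).filter fun j => d j).card := by
        refine Finset.card_le_card_of_injOn (fun q => j (q * W)) ?_ ?_
        · intro q hq
          have hq' : q < k / W := Finset.mem_range.1 hq
          have h4 : (q + 1) * W ≤ k := by
            calc (q + 1) * W ≤ k / W * W := Nat.mul_le_mul_right W hq'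
              _ ≤ k := Nat.div_mul_le_self k W
          rw [Finset.mem_coe, Finset.mem_filter, Finset.mem_range]
          refine ⟨?_, h3 _⟩
          have h5 := h2 (q * W)
          rw [add_mul, one_mul] at h4
          show j (q * W) < k
          omega
        · intro q _ r _ hqr
          have e : j (q * W) = j (r * W) := hqr
          have a1 := h1 (q * W)
          have a2 := h2 (q * W)
          have b1 := h1 (r * W)
          have b2 := h2 (r * W)
          rcases lt_trichotomy q r with hl | hl | hl
          · exfalso
            have h4 : (q + 1) * W ≤ r * W := Nat.mul_le_mul_right W hl
            rw [add_mul, one_mul] at h4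
            omega
          · exact hl
          · exfalso
            have h4 : (r + 1) * W ≤ q * W := Nat.mul_le_mul_right W hl
            rw [add_mul, one_mul] at h4
            omega
  have h4 : k < (k / W + 1) * W := by
    have h5 := Nat.div_add_mod k W
    have h6 := Nat.mod_lt k (show W > 0 by omega)
    rw [add_mul, one_mul, mul_comm]
    omega
  have h5 : (k / W + 1) * W ≤ (((Finset.range k).filter fun j => d j).card + 1) * W :=
    Nat.mul_le_mul_right W (by omega)
  omega

end Pool.STN
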